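import Pool.Agent.W709.VC.GeoDefs

/-! # The two-variable identity from three five term relations -/

set_option autoImplicit false

namespace Pool.Agent.W540.VC

open Pool.Agent.W709.VC

theorem itwo (hS : S_DSYM) (hF : S_FIVE) : S_ITWO := by
  intro X Y hX hX1 hY0 hY1
  obtain ⟨-, s1, s2⟩ := hS
  have hX0 : X ≠ 0 := by
    rintro rfl
    simp at hX
  have hY : Y ≠ 0 := norm_pos_iff.1 hY0
  have hYm : ‖-Y‖ < 1 := by rwa [norm_neg]
  have h1 : 1 + Y ≠ 0 := by
    intro h
    have : Y = -1 := by linear_combination h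
    rw [this] at hY1
    simp at hY1
  have h2 : X + Y ≠ 0 := by
    intro h
    have : Y = -X := by linear_combination h
    rw [this, norm_neg, hX] at hY1
    exact lt_irrefl _ hY1
  have h3 : 1 + X * Y ≠ 0 := by
    intro h
    have : X * Y = -1 := by linear_combination h
    have h' : ‖X * Y‖ = 1 := by rw [this]; simp
    rw [norm_mul, hX, one_mul] at h'
    rw [h'] at hY1
    exact lt_irrefl _ hY1
  have hXm : X - 1 ≠ 0 := sub_ne_zero.2 hX1
  have hXm' : 1 - X ≠ 0 := sub_ne_zero.2 (Ne.symm hX1)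
  -- the arguments
  set p : ℂ := (1 - X) * Y / (1 + Y) with hp
  set w : ℂ := (X - 1) / (X + Y) with hw
  set t : ℂ := (X - 1) ^ 2 / ((X + Y) * (X + 1 / Y)) with ht
  set p' : ℂ := (1 - X) / (1 + Y) with hp'
  set s : ℂ := (X - 1) / (X * (1 + Y)) with hs
  set s' : ℂ := (X - 1) * Y / (X * (1 + Y)) with hs'
  set w' : ℂ := (X - 1) * Y / (1 + X * Y) with hw'
  have h4 : X + 1 / Y ≠ 0 := by
    intro h
    apply h3
    have : (X + 1 / Y) * Y = 0 := by rw [h, zero_mul]
    rw [add_mul, one_div, inv_mul_cancel₀ hY] at this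
    linear_combination this
  -- first relation
  have R1 : Dv (-X * Y) - Dv (-Y) + Dv (1 / X) + Dv s - Dv p = 0 := by
    have h := hF (-X * Y) (-Y) (by simp [hX0, hY]) (by
      intro h
      apply h3
      linear_combination -h) (by simpa using hY) (by
      intro h
      apply h1
      linear_combination -h) (by
      intro h
      apply hXm
      apply mul_right_cancel₀ hY
      linear_combination -h)
    have a1 : -Y / (-X * Y) = 1 / X := by field_simp
    have a2 : (1 - (-X * Y)⁻¹) / (1 - (-Y)⁻¹) = 1 - s := by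
      have : (1 - (-Y)⁻¹) ≠ 0 := by
        intro h
        apply h1
        have h' : (1 - (-Y)⁻¹) * Y = 0 := by rw [h, zero_mul]
        rw [inv_neg, sub_neg_eq_add, add_mul, inv_mul_cancel₀ hY] at h'
        linear_combination h'
      rw [div_eq_iff this, hs]
      field_simp
      ring
    have a3 : (1 - -X * Y) / (1 - -Y) = 1 - p := by
      rw [hp, show (1 - -Y : ℂ) = 1 + Y by ring]
      field_simp
      ring
    rw [a1, a2, a3, s1, s1] at h
    linear_combination h
  have R1' : Dv (-X / Y) + Dv (-Y) + Dv (1 / X) + Dv s' - Dv p' = 0 := by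
    have hb : -X / Y ≠ 1 := by
      intro h
      rw [div_eq_iff hY] at h
      apply h2
      linear_combination -h
    have hb' : (-Y)⁻¹ ≠ 1 := by
      intro h
      apply h1
      have : (-Y)⁻¹ * Y = Y := by rw [h, one_mul]
      rw [inv_neg, neg_mul, inv_mul_cancel₀ hY] at this
      linear_combination -this
    have h := hF (-X / Y) ((-Y)⁻¹) (by simp [hX0, hY]) hb (by simpa using hY) hb' (by
      intro h
      apply hXm
      rw [div_eq_iff hY, inv_neg, neg_mul, inv_mul_cancel₀ hY] at h
      linear_combination -h)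
    have a1 : (-Y)⁻¹ / (-X / Y) = 1 / X := by
      rw [inv_neg]; field_simp
    have a2 : (1 - (-X / Y)⁻¹) / (1 - ((-Y)⁻¹)⁻¹) = 1 - s' := by
      rw [inv_inv, hs', div_eq_iff (by simpa using h1), inv_div]
      field_simp
      ring
    have a3 : (1 - -X / Y) / (1 - (-Y)⁻¹) = 1 - p' := by
      have : (1 - (-Y)⁻¹) ≠ 0 := sub_ne_zero.2 (Ne.symm hb')
      rw [div_eq_iff this, hp', inv_neg]
      field_simp
      ring
    rw [a1, a2, a3, s1, s1, s2] at h
    linear_combination h
  have hw0 : w ≠ 0 := div_ne_zero hXm h2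
  have hw'0 : w' ≠ 0 := div_ne_zero (mul_ne_zero hXm hY) h3
  have hw1 : 1 - w = (1 + Y) / (X + Y) := by rw [hw]; field_simp; ring
  have hw'1 : 1 - w' = (1 + Y) / (1 + X * Y) := by rw [hw']; field_simp; ring
  have hwn : w ≠ 1 := by
    intro h
    have : (1 + Y) / (X + Y) = 0 := by rw [← hw1, h, sub_self]
    exact div_ne_zero h1 h2 this
  have hw'n : w' ≠ 1 := by
    intro h
    have : (1 + Y) / (1 + X * Y) = 0 := by rw [← hw'1, h, sub_self]
    exact div_ne_zero h1 h3 this
  have htw : w' * w = t := by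
    rw [hw, hw', ht]
    have : X + 1 / Y = (1 + X * Y) / Y := by field_simp; ring
    rw [this]
    field_simp
  have ht1 : 1 - t = X * (1 + Y) ^ 2 / ((X + Y) * (1 + X * Y)) := by
    rw [← htw, hw, hw']
    field_simp
    ring
  have R2 : -Dv w - Dv w' + Dv t + Dv s' + Dv s = 0 := by
    have h := hF w⁻¹ w' (inv_ne_zero hw0) (by
      intro h
      exact hwn (by rw [← inv_inv w, h, inv_one])) hw'0 hw'n (by
      intro h
      have h5 : 1 - t = 0 := by
        rw [← htw, ← h, inv_mul_cancel₀ hw0, sub_self]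
      rw [ht1] at h5
      exact div_ne_zero (mul_ne_zero hX0 (pow_ne_zero 2 h1)) (mul_ne_zero h2 h3) h5)
    have a1 : w' / w⁻¹ = t := by rw [div_inv_eq_mul, htw]
    have a2 : (1 - (w⁻¹)⁻¹) / (1 - w'⁻¹) = (1 - s'⁻¹)⁻¹ := by
      rw [inv_inv, hw1, hw', hs', inv_div, inv_div]
      have b1 : 1 - (1 + X * Y) / ((X - 1) * Y) = -(1 + Y) / ((X - 1) * Y) := by
        field_simp; ring
      have b2 : 1 - X * (1 + Y) / ((X - 1) * Y) = -(X + Y) / ((X - 1) * Y) := by
        field_simp; ring
      rw [b1, b2]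
      field_simp
    have a3 : (1 - w⁻¹) / (1 - w') = 1 - s⁻¹ := by
      rw [hw'1, hw, hs, inv_div, inv_div]
      field_simp
      ring
    rw [a1, a2, a3, s2, s2, s1, s1, s2, s2] at h
    linear_combination h
  have E1 : Dv p' = -Dv w := by
    have a : p' = 1 - (1 - w)⁻¹ := by
      rw [hw1, hp', inv_div]
      field_simp
      ring
    rw [a, s1, s2, s1]
    ring
  have E2 : Dv p = -Dv w' := by
    have a : p = 1 - (1 - w')⁻¹ := by
      rw [hw'1, hp, inv_div]
      field_simp
      ring
    rw [a, s1, s2, s1]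
    ring
  linear_combination 2 * R2 - 2 * R1 - 2 * R1' - 2 * E1 + 2 * E2

end Pool.Agent.W540.VC

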