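import Pool.Agent.W540.VC.BrfB

/-! # Vertical sides (S_VERT): the estimate -/

set_option autoImplicit false

namespace Pool.Agent.W540.VC

open Filter Finset EvenVol Pool.Agent.H112R4.VL Pool.Agent.W709.VC
open scoped Real Topology

theorem norm_RR_vert (N d : ℕ) (hd : d < N) (y : ℝ) (ψ : ℂ)
    (hψ : Complex.cos ψ = ((-Real.cosh y : ℝ) : ℂ)) :
    ‖RR N d ψ‖ = ∏ j ∈ range d, (2 * Real.cosh y - 2 * Real.cos (phi N j)) := by
  have hN : 0 < N := by omega
  unfold RR
  rw [norm_prod]
  apply Finset.prod_congr rfl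
  intro j hj
  rw [Finset.mem_range] at hj
  rw [hψ]
  have e : (-2 * ((-Real.cosh y : ℝ) : ℂ) - 2 * (Real.cos (phi N j) : ℂ)) =
      ((2 * Real.cosh y - 2 * Real.cos (phi N j) : ℝ) : ℂ) := by
    push_cast; ring
  rw [e, Complex.norm_real, Real.norm_of_nonneg]
  have h1 := cos_phi_lt hN (show j < N by omega)
  have h2 : 1 ≤ Real.cosh y := Real.one_le_cosh y
  linarith

theorem norm_Fint_vert (A N d : ℕ) (hd : d < N) (y : ℝ) (hy : 0 ≤ y) (ψ : ℂ) (s : ℝ)
    (hcos : Complex.cos ψ = ((-Real.cosh y : ℝ) : ℂ))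
    (hsin : ‖Complex.sin ψ‖ = Real.sinh y)
    (hden : ‖Complex.cos (N * (ψ + π) / 2)‖ = Real.cosh (N * y / 2))
    (hexp : (Complex.I * A * N * ψ ^ 2 / (4 * π)).re = s) :
    ‖Fint A N d ψ‖ ≤ Real.exp s * Real.sinh y * ∏ j ∈ range d, (2 - 2 * Real.cos (phi N j)) := by
  unfold Fint
  rw [norm_div, norm_mul, norm_mul, Complex.norm_exp, hexp, norm_RR_vert N d hd y ψ hcos,
    norm_mul, norm_mul, norm_pow, hsin, hden]
  have h1 := prod_le N d hd y
  have hc : 0 < Real.cosh (N * y / 2) := Real.cosh_pos _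
  have hs : 0 ≤ Real.sinh y := Real.sinh_nonneg_iff.mpr hy
  have hN : 0 < N := by omega
  have h0 : 0 ≤ ∏ j ∈ range d, (2 - 2 * Real.cos (phi N j)) := by
    apply Finset.prod_nonneg
    intro j hj
    rw [Finset.mem_range] at hj
    linarith [cos_phi_lt hN (show j < N by omega)]
  have n2 : ‖(2 : ℂ)‖ = 2 := by simp
  have n4 : ‖(4 : ℂ)‖ = 4 := by simp
  rw [n2, n4, div_le_iff₀ (by positivity)]
  set P := ∏ j ∈ range d, (2 * Real.cosh y - 2 * Real.cos (phi N j))
  set P0 := ∏ j ∈ range d, (2 - 2 * Real.cos (phi N j))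
  have h2 : Real.exp s * P * (2 * Real.sinh y) ≤
      Real.exp s * (Real.cosh (N * y / 2) ^ 2 * P0) * (2 * Real.sinh y) := by
    apply mul_le_mul_of_nonneg_right _ (by positivity)
    exact mul_le_mul_of_nonneg_left h1 (Real.exp_pos _).le
  refine h2.trans ?_
  have h3 : 0 ≤ Real.exp s * (Real.cosh (N * y / 2) ^ 2 * P0) * Real.sinh y := by positivity
  nlinarith [h3]

/-- `‖brf‖² ∏ ≤ e^{ε N}` -/
theorem brf_prod : ∀ ε : ℝ, 0 < ε → ∀ᶠ N : ℕ in atTop, ∀ n d : ℕ, n + d + 1 = N →
    ‖brf (v0 N) n‖ ^ 2 * ∏ j ∈ range d, (2 - 2 * Real.cos (phi N j)) ≤ Real.exp (ε * N) := by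
  intro ε hε
  have h1 := brf_asymp (ε / 8) (by positivity)
  have h2 := Pool.Agent.H811R3.EvenVolR.taskR (ε / 8) (by positivity)
  have h3 : ∀ᶠ N : ℕ in atTop, ∀ m : ℕ, m ≤ 4 * (2 * N) →
    |S (2 * N) m + (2 * N : ℕ) / π * GapVol.lob (π * m / (2 * N : ℕ))| ≤ (ε / 8) * (2 * N : ℕ) :=
    (tendsto_id.const_mul_atTop' (show 0 < 2 by norm_num)).eventually h2
  filter_upwards [h1, h2, h3, eventually_ge_atTop 1] with N a1 a2 a3 hN n d hnd
  have hNR : (0 : ℝ) < N := by exact_mod_cast hN
  have hd : d < N := by omega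
  have b1 := a1 n d hnd
  have b2 := a2 d (by omega)
  have b3 := a3 (2 * d) (by omega)
  have e1 : π * ((2 * d : ℕ) : ℝ) / ((2 * N : ℕ) : ℝ) = π * d / N := by
    push_cast; field_simp
  rw [e1] at b3
  have hbp := brf_ne (show n < N by omega)
  have hpp : 0 < ∏ j ∈ range d, (2 - 2 * Real.cos (phi N j)) := by
    apply Finset.prod_pos
    intro j hj
    rw [Finset.mem_range] at hj
    linarith [cos_phi_lt (show 0 < N by omega) (show j < N by omega)]
  rw [← Real.log_le_iff_le_exp (by positivity), Real.log_mul (by positivity) hpp.ne', Real.log_pow,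
    log_prod_zero N d hd]
  rw [abs_le] at b1 b2 b3
  push_cast at b3 ⊢
  obtain ⟨b1l, b1u⟩ := b1
  obtain ⟨b2l, b2u⟩ := b2
  obtain ⟨b3l, b3u⟩ := b3
  set X := (N : ℝ) / π * GapVol.lob (π * d / N) with hX
  have e2 : 2 * (N : ℝ) / π * GapVol.lob (π * d / N) = 2 * X := by rw [hX]; ring
  rw [e2] at b3l b3u
  nlinarith

theorem vert : S_VERT := by
  intro A ε hε
  filter_upwards [brf_prod ε hε, eventually_ge_atTop 1] with N h1 hN n d hnd y hy
  have hNR : (0 : ℝ) < N := by exact_mod_cast hN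
  have hd : d < N := by omega
  have b1 := h1 n d hnd
  have hs : 0 ≤ Real.sinh y := Real.sinh_nonneg_iff.mpr hy
  have hpiN : ((π : ℝ) : ℂ) ≠ 0 := by exact_mod_cast Real.pi_ne_zero
  constructor
  · have c1 := norm_Fint_vert A N d hd y hy (π + y * Complex.I) (-(A * N * y / 2)) (by
      rw [add_comm, Complex.cos_add_pi, Complex.cos_mul_I]
      push_cast; ring) (by
      rw [add_comm, Complex.sin_add_pi, Complex.sin_mul_I, norm_neg, norm_mul, Complex.norm_I,
        mul_one, ← Complex.ofReal_sinh, Complex.norm_real, Real.norm_of_nonneg hs]) (by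
      have e1 : (N : ℂ) * (π + y * Complex.I + π) / 2 = ((N * y / 2 : ℝ) : ℂ) * Complex.I + N * π := by
        push_cast; ring
      rw [e1]
      have e2 : ‖Complex.cos (((N * y / 2 : ℝ) : ℂ) * Complex.I + N * π)‖ =
          ‖Complex.cos (((N * y / 2 : ℝ) : ℂ) * Complex.I)‖ := by
        rw [Complex.cos_antiperiodic.add_nat_mul_eq]
        simp
      rw [e2, Complex.cos_mul_I, ← Complex.ofReal_cosh, Complex.norm_real,
        Real.norm_of_nonneg (Real.cosh_pos _).le]) (by
      have e1 : Complex.I * A * N * (π + y * Complex.I) ^ 2 / (4 * π) =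
          ((-(A * N * y / 2) : ℝ) : ℂ) + ((A * N * (π ^ 2 - y ^ 2) / (4 * π) : ℝ) : ℂ) * Complex.I := by
        push_cast
        field_simp
        ring_nf
        rw [Complex.I_sq, show Complex.I ^ 3 = -Complex.I by
          rw [pow_succ, Complex.I_sq]; ring]
        ring
      rw [e1, Complex.add_re, Complex.re_ofReal_mul, Complex.I_re, mul_zero, Complex.ofReal_re,
        add_zero])
    calc ‖brf (v0 N) n‖ ^ 2 * ‖Fint A N d (π + y * Complex.I)‖ ≤
        ‖brf (v0 N) n‖ ^ 2 * (Real.exp (-(A * N * y / 2)) * Real.sinh y *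
          ∏ j ∈ range d, (2 - 2 * Real.cos (phi N j))) :=
          mul_le_mul_of_nonneg_left c1 (by positivity)
      _ = (Real.exp (-(A * N * y / 2)) * Real.sinh y) * (‖brf (v0 N) n‖ ^ 2 *
          ∏ j ∈ range d, (2 - 2 * Real.cos (phi N j))) := by ring
      _ ≤ (1 * Real.sinh y) * Real.exp (ε * N) := by
          apply mul_le_mul _ b1 _ (by positivity)
          · apply mul_le_mul_of_nonneg_right _ hs
            rw [Real.exp_le_one_iff]
            have : 0 ≤ (A : ℝ) * N * y / 2 := by positivity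
            linarith
          · apply mul_nonneg (by positivity)
            apply Finset.prod_nonneg
            intro j hj
            rw [Finset.mem_range] at hj
            linarith [cos_phi_lt (show 0 < N by omega) (show j < N by omega)]
      _ = _ := by ring
  · have c1 := norm_Fint_vert A N d hd y hy (-π + y * Complex.I) (A * N * y / 2) (by
      rw [add_comm, ← sub_eq_add_neg, Complex.cos_sub_pi, Complex.cos_mul_I]
      push_cast; ring) (by
      rw [add_comm, ← sub_eq_add_neg, Complex.sin_sub_pi, Complex.sin_mul_I, norm_neg, norm_mul,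
        Complex.norm_I, mul_one, ← Complex.ofReal_sinh, Complex.norm_real,
        Real.norm_of_nonneg hs]) (by
      have e1 : (N : ℂ) * (-π + y * Complex.I + π) / 2 = ((N * y / 2 : ℝ) : ℂ) * Complex.I := by
        push_cast; ring
      rw [e1, Complex.cos_mul_I, ← Complex.ofReal_cosh, Complex.norm_real,
        Real.norm_of_nonneg (Real.cosh_pos _).le]) (by
      have e1 : Complex.I * A * N * (-π + y * Complex.I) ^ 2 / (4 * π) =
          ((A * N * y / 2 : ℝ) : ℂ) + ((A * N * (π ^ 2 - y ^ 2) / (4 * π) : ℝ) : ℂ) * Complex.I := by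
        push_cast
        field_simp
        ring_nf
        rw [Complex.I_sq, show Complex.I ^ 3 = -Complex.I by
          rw [pow_succ, Complex.I_sq]; ring]
        ring
      rw [e1, Complex.add_re, Complex.re_ofReal_mul, Complex.I_re, mul_zero, Complex.ofReal_re,
        add_zero])
    calc ‖brf (v0 N) n‖ ^ 2 * ‖Fint A N d (-π + y * Complex.I)‖ ≤
        ‖brf (v0 N) n‖ ^ 2 * (Real.exp (A * N * y / 2) * Real.sinh y *
          ∏ j ∈ range d, (2 - 2 * Real.cos (phi N j))) :=
          mul_le_mul_of_nonneg_left c1 (by positivity)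
      _ = (Real.exp (A * N * y / 2) * Real.sinh y) * (‖brf (v0 N) n‖ ^ 2 *
          ∏ j ∈ range d, (2 - 2 * Real.cos (phi N j))) := by ring
      _ ≤ (Real.exp (A * N * y / 2) * Real.sinh y) * Real.exp (ε * N) := by
          exact mul_le_mul_of_nonneg_left b1 (by positivity)
      _ = _ := by rw [Real.exp_add]; ring

end Pool.Agent.W540.VC

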