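import Pool.Agent.W709.VC.Defs

/-! # Factorials at the root of unity and the vertical sides (S_BRF, S_VERT) -/

set_option autoImplicit false

namespace Pool.Agent.W540.VC

open Filter Finset EvenVol Pool.Agent.H112R4.VL Pool.Agent.W709.VC
open scoped Real Topology

theorem norm_br (N : ℕ) (k : ℤ) : ‖br (v0 N) k‖ = |2 * Real.sin (π * k / N)| := by
  have h1 : br (v0 N) k = 2 * Complex.I * Complex.sin ((π * k / N : ℝ) : ℂ) := by
    unfold br v0
    rw [← Complex.exp_int_mul, ← Complex.exp_int_mul, Complex.sin]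
    have e1 : (k : ℂ) * (π * Complex.I / N) = ((π * k / N : ℝ) : ℂ) * Complex.I := by
      push_cast; ring
    have e2 : ((-k : ℤ) : ℂ) * (π * Complex.I / N) = -((π * k / N : ℝ) : ℂ) * Complex.I := by
      push_cast; ring
    rw [e1, e2]
    have hI := Complex.I_mul_I
    linear_combination (-(Complex.exp (-((π * k / N : ℝ) : ℂ) * Complex.I)) +
      Complex.exp (((π * k / N : ℝ) : ℂ) * Complex.I)) * hI
  rw [h1, ← Complex.ofReal_sin, norm_mul, norm_mul, Complex.norm_real, abs_mul]
  simp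

theorem log_brf {N n : ℕ} (hn : n < N) : Real.log ‖brf (v0 N) n‖ = S N n := by
  have hN : (0 : ℝ) < N := by exact_mod_cast (by omega : 0 < N)
  unfold brf EvenVol.S
  rw [norm_prod, Real.log_prod]
  · apply Finset.sum_congr rfl
    intro j hj
    rw [Finset.mem_range] at hj
    rw [norm_br]
    unfold sg
    have h1 : ¬ N ∣ j + 1 := fun h => by
      have := Nat.le_of_dvd (by omega) h
      omega
    rw [if_neg h1]
    push_cast
    rfl
  · intro j hj
    rw [Finset.mem_range] at hj
    rw [norm_br]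
    have hj' : ((j : ℝ) + 1) < N := by exact_mod_cast (by omega : j + 1 < N)
    have h2 : 0 < Real.sin (π * (((j : ℤ) + 1 : ℤ) : ℝ) / N) := by
      apply Real.sin_pos_of_pos_of_lt_pi
      · push_cast; positivity
      · push_cast
        rw [div_lt_iff₀ hN]
        exact mul_lt_mul_of_pos_left hj' Real.pi_pos
    positivity

theorem brf_ne {N n : ℕ} (hn : n < N) : 0 < ‖brf (v0 N) n‖ := by
  have hN : (0 : ℝ) < N := by exact_mod_cast (by omega : 0 < N)
  unfold brf
  rw [norm_prod]
  apply Finset.prod_pos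
  intro j hj
  rw [Finset.mem_range] at hj
  rw [norm_br]
  have hj' : ((j : ℝ) + 1) < N := by exact_mod_cast (by omega : j + 1 < N)
  have h2 : 0 < Real.sin (π * (((j : ℤ) + 1 : ℤ) : ℝ) / N) := by
    apply Real.sin_pos_of_pos_of_lt_pi
    · push_cast; positivity
    · push_cast
      rw [div_lt_iff₀ hN]
      exact mul_lt_mul_of_pos_left hj' Real.pi_pos
  positivity

/-- `S_BRF` -/
theorem brf_asymp : S_BRF := by
  intro ε hε
  have hR := Pool.Agent.H811R3.EvenVolR.taskR (ε / 2) (by positivity)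
  have hε' : 0 < ε * π / 2 := by positivity
  have huc := isCompact_Icc.uniformContinuousOn_of_continuous
    (GapVol.lob_cont.continuousOn (s := Set.Icc (0 : ℝ) π))
  rw [Metric.uniformContinuousOn_iff] at huc
  obtain ⟨δ, hδ, hu⟩ := huc (ε * π / 2) hε'
  have h1 : ∀ᶠ N : ℕ in atTop, π / (N : ℝ) < δ :=
    (tendsto_const_div_atTop_nhds_zero_nat π).eventually (gt_mem_nhds hδ)
  filter_upwards [hR, h1, eventually_ge_atTop 1] with N hN1 hN2 hN n d hnd
  have hNR : (0 : ℝ) < N := by exact_mod_cast hN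
  rw [log_brf (by omega)]
  have h2 := hN1 n (by omega)
  have hn : (n : ℝ) = N - (d + 1) := by
    have : ((n + d + 1 : ℕ) : ℝ) = N := by exact_mod_cast hnd
    push_cast at this; linarith
  have e1 : GapVol.lob (π * n / N) = -GapVol.lob (π * (d + 1) / N) := by
    rw [← Pool.Agent.H811R3.EvenVolR.lob_refl]
    congr 1
    rw [hn]; field_simp
  rw [e1] at h2
  have hd1 : ((d : ℝ) + 1) ≤ N := by exact_mod_cast (by omega : d + 1 ≤ N)
  have a1 : π * ((d : ℝ) + 1) / N ∈ Set.Icc (0 : ℝ) π := by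
    refine ⟨by positivity, ?_⟩
    rw [div_le_iff₀ hNR]
    exact mul_le_mul_of_nonneg_left hd1 Real.pi_pos.le
  have a2 : π * (d : ℝ) / N ∈ Set.Icc (0 : ℝ) π := by
    refine ⟨by positivity, ?_⟩
    rw [div_le_iff₀ hNR]
    exact mul_le_mul_of_nonneg_left (by linarith) Real.pi_pos.le
  have a3 : dist (π * ((d : ℝ) + 1) / N) (π * (d : ℝ) / N) < δ := by
    rw [Real.dist_eq]
    have : π * ((d : ℝ) + 1) / N - π * (d : ℝ) / N = π / N := by ring
    rw [this, abs_of_pos (by positivity)]
    exact hN2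
  have a4 := (hu _ a1 _ a2 a3).le
  rw [Real.dist_eq] at a4
  have a5 : |N / π * (GapVol.lob (π * ((d : ℝ) + 1) / N) - GapVol.lob (π * (d : ℝ) / N))| ≤
      N / π * (ε * π / 2) := by
    rw [abs_mul, abs_of_pos (by positivity : 0 < (N : ℝ) / π)]
    exact mul_le_mul_of_nonneg_left a4 (by positivity)
  have e2 : N / π * (ε * π / 2) = ε / 2 * N := by field_simp
  rw [e2] at a5
  calc |S N n - N / π * GapVol.lob (π * d / N)| =
      |(S N n + N / π * -GapVol.lob (π * (d + 1) / N)) +
        N / π * (GapVol.lob (π * ((d : ℝ) + 1) / N) - GapVol.lob (π * (d : ℝ) / N))| := by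
        congr 1; ring
    _ ≤ ε / 2 * N + ε / 2 * N := (abs_add_le _ _).trans (by linarith)
    _ = ε * N := by ring

end Pool.Agent.W540.VC
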