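import Pool.Agent.W540.VC.BrfA

/-! # Vertical sides (S_VERT) -/

set_option autoImplicit false

namespace Pool.Agent.W540.VC

open Filter Finset EvenVol Pool.Agent.H112R4.VL Pool.Agent.W709.VC
open scoped Real Topology

/-- `∏_{j<N} (x - e^{i φ_j}) = x^N + 1` -/
theorem prod_root (N : ℕ) (hN : 0 < N) (x : ℂ) :
    ∏ j ∈ range N, (x - Complex.exp (Complex.I * (phi N j : ℝ))) = x ^ N + 1 := by
  have hN0 : (N : ℂ) ≠ 0 := by exact_mod_cast hN.ne'
  have hprim := Complex.isPrimitiveRoot_exp N hN.ne'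
  set ζ : ℂ := Complex.exp (2 * π * Complex.I / N) with hζ
  set w : ℂ := Complex.exp (π * Complex.I / N) with hw
  have hwN : w ^ N = -1 := by
    rw [hw, ← Complex.exp_nat_mul]
    have : (N : ℂ) * (π * Complex.I / N) = π * Complex.I := by field_simp
    rw [this, Complex.exp_pi_mul_I]
  have h1 := hprim.pow_sub_pow_eq_prod_sub_mul x w hN
  rw [hwN, sub_neg_eq_add] at h1
  rw [h1]
  have _i : NeZero N := ⟨hN.ne'⟩
  refine Finset.prod_nbij (fun j => ζ ^ j) ?_ ?_ ?_ ?_
  · intro j _
    rw [Polynomial.mem_nthRootsFinset hN, ← pow_mul, mul_comm, pow_mul, hprim.pow_eq_one, one_pow]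
  · intro i hi j hj hij
    rw [Finset.coe_range, Set.mem_Iio] at hi hj
    exact hprim.pow_inj hi hj hij
  · intro μ hμ
    rw [Finset.mem_coe, Polynomial.mem_nthRootsFinset hN] at hμ
    obtain ⟨i, hi, rfl⟩ := hprim.eq_pow_of_pow_eq_one hμ
    exact ⟨i, by simpa using hi, rfl⟩
  · intro j _
    congr 1
    rw [hζ, hw, ← Complex.exp_nat_mul, ← Complex.exp_add]
    congr 1
    unfold phi
    push_cast
    field_simp

/-- `2 cosh y - 2 cos φ = e^{-y} |e^y - e^{i φ}|^2` -/
theorem norm_sq_exp (y φ : ℝ) :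
    ‖(Real.exp y : ℂ) - Complex.exp (Complex.I * (φ : ℝ))‖ ^ 2 =
      Real.exp y * (2 * Real.cosh y - 2 * Real.cos φ) := by
  rw [← Complex.normSq_eq_norm_sq, mul_comm Complex.I, Complex.exp_mul_I, Complex.normSq_apply]
  have hc : Real.exp y * Real.exp (-y) = 1 := by rw [← Real.exp_add]; simp
  have hs := Real.sin_sq_add_cos_sq φ
  rw [Real.cosh_eq, ← Complex.ofReal_cos, ← Complex.ofReal_sin]
  simp only [Complex.sub_re, Complex.ofReal_re, Complex.add_re, Complex.mul_re, Complex.I_re,
    mul_zero, Complex.ofReal_im, Complex.I_im, mul_one, sub_self, add_zero, Complex.sub_im,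
    Complex.add_im, Complex.mul_im, zero_add, zero_sub]
  have e : Real.exp y * (2 * ((Real.exp y + Real.exp (-y)) / 2) - 2 * Real.cos φ) =
      Real.exp y * Real.exp y + Real.exp y * Real.exp (-y) - 2 * Real.exp y * Real.cos φ := by ring
  rw [e, hc]
  nlinarith [hs]

theorem prod_cosh (N : ℕ) (hN : 0 < N) (y : ℝ) :
    ∏ j ∈ range N, (2 * Real.cosh y - 2 * Real.cos (phi N j)) = 4 * Real.cosh (N * y / 2) ^ 2 := by
  have h1 := prod_root N hN (Real.exp y : ℂ)
  have h2 : ‖∏ j ∈ range N, ((Real.exp y : ℂ) - Complex.exp (Complex.I * (phi N j : ℝ)))‖ ^ 2 =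
      Real.exp (N * y) * ∏ j ∈ range N, (2 * Real.cosh y - 2 * Real.cos (phi N j)) := by
    rw [norm_prod, ← Finset.prod_pow]
    simp_rw [norm_sq_exp]
    rw [Finset.prod_mul_distrib, Finset.prod_const, Finset.card_range, ← Real.exp_nat_mul]
  rw [h1] at h2
  have h3 : ‖((Real.exp y : ℂ)) ^ N + 1‖ = Real.exp (N * y) + 1 := by
    have : ((Real.exp y : ℂ)) ^ N + 1 = ((Real.exp (N * y) + 1 : ℝ) : ℂ) := by
      push_cast
      rw [← Complex.exp_nat_mul]
    rw [this, Complex.norm_real, Real.norm_of_nonneg (by positivity)]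
  rw [h3] at h2
  have h4 : (Real.exp (N * y) + 1) ^ 2 = Real.exp (N * y) * (4 * Real.cosh (N * y / 2) ^ 2) := by
    rw [Real.cosh_eq]
    have e1 : Real.exp (N * y) = Real.exp (N * y / 2) * Real.exp (N * y / 2) := by
      rw [← Real.exp_add]; congr 1; ring
    have e2 : Real.exp (N * y / 2) * Real.exp (-(N * y / 2)) = 1 := by
      rw [← Real.exp_add]; simp
    rw [e1]
    set a := Real.exp (N * y / 2)
    set b := Real.exp (-(N * y / 2))
    have : a * a * (4 * ((a + b) / 2) ^ 2) = (a * a + a * b) ^ 2 := by ring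
    rw [this, e2]
  rw [h4] at h2
  exact (mul_left_cancel₀ (Real.exp_pos _).ne' h2).symm

/-- the factors are positive -/
theorem cos_phi_lt {N : ℕ} (hN : 0 < N) {j : ℕ} (hj : j < N) : Real.cos (phi N j) < 1 := by
  have hNR : (0 : ℝ) < N := by exact_mod_cast hN
  have h0 : 0 < phi N j := by unfold phi; positivity
  have hj' : 2 * (j : ℝ) + 1 < 2 * N := by exact_mod_cast (by omega : 2 * j + 1 < 2 * N)
  have h1 : phi N j < 2 * π := by
    unfold phi
    rw [div_lt_iff₀ hNR]
    nlinarith [Real.pi_pos]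
  rcases lt_or_eq_of_le (Real.cos_le_one (phi N j)) with h | h
  · exact h
  · exfalso
    rw [Real.cos_eq_one_iff_of_lt_of_lt (by linarith) h1] at h
    linarith

theorem prod_le (N d : ℕ) (hd : d < N) (y : ℝ) :
    ∏ j ∈ range d, (2 * Real.cosh y - 2 * Real.cos (phi N j)) ≤
      Real.cosh (N * y / 2) ^ 2 * ∏ j ∈ range d, (2 - 2 * Real.cos (phi N j)) := by
  have hN : 0 < N := by omega
  have hp : ∀ j, j < N → 0 < 2 - 2 * Real.cos (phi N j) := fun j hj => by
    linarith [cos_phi_lt hN hj]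
  have hc : 1 ≤ Real.cosh y := Real.one_le_cosh y
  have h1 := prod_cosh N hN y
  have h2 := prod_cosh N hN 0
  rw [Real.cosh_zero, mul_zero, zero_div, Real.cosh_zero, one_pow, mul_one, mul_one] at h2
  obtain ⟨e, he⟩ : ∃ e, N = d + e := ⟨N - d, by omega⟩
  have h1' : (∏ j ∈ range d, (2 * Real.cosh y - 2 * Real.cos (phi N j))) *
      ∏ j ∈ range e, (2 * Real.cosh y - 2 * Real.cos (phi N (d + j))) =
        4 * Real.cosh (N * y / 2) ^ 2 := by
    rw [← h1, ← Finset.prod_range_add, ← he]
  have h2' : (∏ j ∈ range d, (2 - 2 * Real.cos (phi N j))) *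
      ∏ j ∈ range e, (2 - 2 * Real.cos (phi N (d + j))) = 4 := by
    rw [← h2, ← Finset.prod_range_add, ← he]
  have h3 : ∏ j ∈ range e, (2 - 2 * Real.cos (phi N (d + j))) ≤
      ∏ j ∈ range e, (2 * Real.cosh y - 2 * Real.cos (phi N (d + j))) := by
    apply Finset.prod_le_prod
    · intro j hj
      rw [Finset.mem_range] at hj
      exact (hp _ (by omega)).le
    · intro j _
      linarith
  have h4 : 0 < ∏ j ∈ range e, (2 - 2 * Real.cos (phi N (d + j))) := by
    apply Finset.prod_pos
    intro j hj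
    rw [Finset.mem_range] at hj
    exact hp _ (by omega)
  have h5 : 0 ≤ ∏ j ∈ range d, (2 * Real.cosh y - 2 * Real.cos (phi N j)) := by
    apply Finset.prod_nonneg
    intro j hj
    rw [Finset.mem_range] at hj
    linarith [hp j (by omega)]
  set P := ∏ j ∈ range d, (2 * Real.cosh y - 2 * Real.cos (phi N j))
  set P0 := ∏ j ∈ range d, (2 - 2 * Real.cos (phi N j))
  set Q := ∏ j ∈ range e, (2 * Real.cosh y - 2 * Real.cos (phi N (d + j)))
  set Q0 := ∏ j ∈ range e, (2 - 2 * Real.cos (phi N (d + j)))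
  have h6 : P * Q0 ≤ P * Q := mul_le_mul_of_nonneg_left h3 h5
  have h7 : P * Q0 ≤ (Real.cosh (N * y / 2) ^ 2 * P0) * Q0 := by
    calc P * Q0 ≤ P * Q := h6
      _ = Real.cosh (N * y / 2) ^ 2 * 4 := by rw [h1']; ring
      _ = _ := by rw [← h2']; ring
  exact le_of_mul_le_mul_right h7 h4

/-- the product at `y = 0` in terms of `S` -/
theorem log_prod_zero (N d : ℕ) (hd : d < N) :
    Real.log (∏ j ∈ range d, (2 - 2 * Real.cos (phi N j))) =
      2 * (EvenVol.S (2 * N) (2 * d) - EvenVol.S N d) := by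
  have hN : 0 < N := by omega
  have hNR : (0 : ℝ) < N := by exact_mod_cast hN
  have hp : ∀ j, j < N → 0 < 2 - 2 * Real.cos (phi N j) := fun j hj => by
    linarith [cos_phi_lt hN hj]
  induction d with
  | zero => simp [EvenVol.S]
  | succ d ih =>
    have h1 := ih (by omega)
    rw [Finset.prod_range_succ, Real.log_mul, h1]
    · unfold EvenVol.S
      rw [show 2 * (d + 1) = 2 * d + 1 + 1 by ring, Finset.sum_range_succ, Finset.sum_range_succ,
        Finset.sum_range_succ]
      have e1 : sg (2 * N) (2 * d + 1 + 1) = sg N (d + 1) := by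
        unfold sg
        have a1 : ¬ 2 * N ∣ 2 * d + 1 + 1 := fun h => by
          have := Nat.le_of_dvd (by omega) h
          omega
        have a2 : ¬ N ∣ d + 1 := fun h => by
          have := Nat.le_of_dvd (by omega) h
          omega
        rw [if_neg a1, if_neg a2]
        congr 3
        push_cast
        field_simp
        ring
      have e2 : Real.log (2 - 2 * Real.cos (phi N d)) = 2 * Real.log (sg (2 * N) (2 * d + 1)) := by
        unfold sg
        have a1 : ¬ 2 * N ∣ 2 * d + 1 := fun h => by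
          have := Nat.le_of_dvd (by omega) h
          omega
        rw [if_neg a1]
        have a3 : 2 - 2 * Real.cos (phi N d) =
            |2 * Real.sin (π * ((2 * d + 1 : ℕ) : ℝ) / ((2 * N : ℕ) : ℝ))| ^ 2 := by
          rw [sq_abs, mul_pow, Real.sin_sq_eq_half_sub]
          have : 2 * (π * ((2 * d + 1 : ℕ) : ℝ) / ((2 * N : ℕ) : ℝ)) = phi N d := by
            unfold phi
            push_cast
            field_simp
          rw [this]; ring
        rw [a3, Real.log_pow]
        norm_num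
      rw [e1, e2]
      ring
    · apply ne_of_gt
      apply Finset.prod_pos
      intro j hj
      rw [Finset.mem_range] at hj
      exact hp j (by omega)
    · exact (hp d (by omega)).ne'

end Pool.Agent.W540.VC
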